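import Pool.Agent.H24.Fs2

namespace Pool.Agent.Results.MP_a569f2_lc.Characterisation

open Pool.Agent.H24.Fs Pool.Agent.H24.Cf

theorem result (n : ℕ) (T : Type) (L : Language T) : List.TFAE
    [FSPDA n L,
     ∃ (Δ : Type) (_ : Finite Δ) (K P : Language Δ) (h : Δ → List T),
       K.IsContextFree ∧ FSFA n P ∧ ∀ y, y ∈ L ↔ ∃ w, w ∈ K ∧ w ∈ P ∧ w.flatMap h = y,
     ∃ (Δ : Type) (_ : Finite Δ) (K : Language Δ) (c : Δ → Fin (n + 1)) (h : Δ → List T),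
       K.IsContextFree ∧ ∀ y, y ∈ L ↔ ∃ w, w ∈ K ∧ w.map c ∈ EqB n ∧ w.flatMap h = y] := by
  tfae_have 1 ↔ 2 := (char1 L).trans (char2 L)
  tfae_have 1 ↔ 3 := (char1 L).trans
    ⟨fun ⟨Δ, i, K, c, h, a, b⟩ => ⟨Δ, i, K, c, h, SCF.cf a, b⟩,
      fun ⟨Δ, i, K, c, h, a, b⟩ => ⟨Δ, i, K, c, h, scf_of_cf a, b⟩⟩
  tfae_finish

end Pool.Agent.Results.MP_a569f2_lc.Characterisation
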